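import Pool.Agent.H487.ED.Stm
import Pool.Agent.H477.E.Loc4

set_option autoImplicit false

/-!
Spacing of the real zeros near a good point (S_SPC, project ED of helper487).
-/

open Finset Complex Filter Topology Metric Set MeasureTheory

namespace Pool.Agent.H277.ED

open Pool.Agent.H477.Jen
open Pool.Agent.H477.E
open Pool.Agent.H487.ED

/-- the logarithmic derivative of the half circle integral, with a small loss -/
theorem logPe {P : ℂ → ℂ} (hP : Differentiable ℂ P) {k : ℕ} {lam t F0 e : ℝ} (hk : 1 ≤ k)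
    (hlam : 0 < lam) (hF0pos : 0 < F0) (he : 0 < e)
    (h2 : ∀ c : ℂ, ‖c - t‖ ≤ k / lam / 8 → F0 * Real.exp (-(lam * c.im) - e * k) ≤ ‖P c‖ ∧
      ‖P c‖ ≤ F0 * Real.exp (-(lam * c.im) + e * k)) {c : ℂ} (hc : ‖c - t‖ ≤ k / lam / 16) :
    P c ≠ 0 ∧ |(deriv P c / P c).im - lam| ≤ 128 * e * lam := by
  have hk0 : (0:ℝ) < k := by exact_mod_cast hk
  set r : ℝ := k / lam with hrdef
  have hr0 : 0 < r := by positivity
  have hlr : lam * r = k := by rw [hrdef]; field_simp
  have hPne : ∀ c : ℂ, ‖c - t‖ ≤ r / 8 → P c ≠ 0 := by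
    intro c hc h0
    have := (h2 c hc).1
    rw [h0, norm_zero] at this
    have h3 : 0 < F0 * Real.exp (-(lam * c.im) - e * k) := by positivity
    linarith
  refine ⟨hPne c (by linarith), ?_⟩
  set g : ℂ → ℂ := fun v => P (c + v) * exp (-(I * lam * (c + v - t))) with hg
  have hgd : Differentiable ℂ g := by
    intro v
    have h1 : DifferentiableAt ℂ (fun v : ℂ => c + v) v := by fun_prop
    exact ((hP _).comp v h1).mul (by fun_prop)
  have hin : ∀ v : ℂ, ‖v‖ ≤ r / 16 → ‖c + v - t‖ ≤ r / 8 := by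
    intro v hv
    have : c + v - t = (c - t) + v := by ring
    rw [this]
    refine (norm_add_le _ _).trans ?_
    linarith
  have hgn : ∀ v : ℂ, ‖g v‖ = ‖P (c + v)‖ * Real.exp (lam * (c + v).im) := by
    intro v
    rw [hg]
    simp only []
    rw [norm_mul, norm_exp]
    congr 2
    simp
  have hgb : ∀ v : ℂ, ‖v‖ ≤ r / 16 → F0 * Real.exp (-(e * k)) ≤ ‖g v‖ ∧
      ‖g v‖ ≤ F0 * Real.exp (e * k) := by
    intro v hv
    obtain ⟨h3, h4⟩ := h2 (c + v) (hin v hv)
    rw [hgn]
    constructor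
    · calc F0 * Real.exp (-(e * k)) =
            (F0 * Real.exp (-(lam * (c + v).im) - e * k)) * Real.exp (lam * (c + v).im) := by
            rw [mul_assoc F0, ← Real.exp_add]
            congr 2
            ring
        _ ≤ _ := by gcongr
    · calc ‖P (c + v)‖ * Real.exp (lam * (c + v).im) ≤
            (F0 * Real.exp (-(lam * (c + v).im) + e * k)) * Real.exp (lam * (c + v).im) := by
            gcongr
        _ = _ := by
            rw [mul_assoc F0, ← Real.exp_add]
            congr 2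
            ring
  have hg0 : ‖(0:ℂ)‖ ≤ r / 16 := by
    rw [norm_zero]; positivity
  have hb := logder_bound hgd (show 0 < r / 16 by positivity) (show 0 < 2 * (e * k) by positivity)
    (fun z hz h0 => by
      have := (hgb z hz).1
      rw [h0, norm_zero] at this
      have h3 : 0 < F0 * Real.exp (-(e * k)) := by positivity
      linarith)
    (fun z hz => by
      calc ‖g z‖ ≤ F0 * Real.exp (e * k) := (hgb z hz).2
        _ = Real.exp (2 * (e * k)) * (F0 * Real.exp (-(e * k))) := by
            rw [mul_comm (Real.exp _), mul_assoc F0, ← Real.exp_add]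
            congr 2
            ring
        _ ≤ _ := by
            gcongr
            exact (hgb 0 hg0).1)
  have hd : deriv g 0 = deriv P c * exp (-(I * lam * (c - t))) + P c * (exp (-(I * lam * (c - t))) * (-(I * lam))) := by
    have h3 : HasDerivAt (fun v : ℂ => P (c + v)) (deriv P c) 0 := by
      have h4 : HasDerivAt (fun v : ℂ => c + v) 1 0 := (hasDerivAt_id (0:ℂ)).const_add c
      have h5 := (hP (c + 0)).hasDerivAt.comp (0:ℂ) h4
      rw [mul_one, add_zero] at h5
      exact h5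
    have h6 : HasDerivAt (fun v : ℂ => exp (-(I * lam * (c + v - t)))) (exp (-(I * lam * (c + 0 - t))) * (-(I * lam * 1))) 0 := by
      have h7 : HasDerivAt (fun v : ℂ => -(I * lam * (c + v - t))) (-(I * lam * 1)) 0 :=
        ((((hasDerivAt_id (0:ℂ)).const_add c).sub_const (t:ℂ)).const_mul (I * lam)).neg
      exact h7.cexp
    have h8 := h3.mul h6
    have h9 := h8.deriv
    simp only [add_zero, mul_one] at h9
    exact h9
  have hg00 : g 0 = P c * exp (-(I * lam * (c - t))) := by
    rw [hg]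
    simp only [add_zero]
  have hPc : P c ≠ 0 := hPne c (by linarith)
  have hq : deriv g 0 / g 0 = deriv P c / P c - I * lam := by
    rw [hd, hg00]
    have := exp_ne_zero (-(I * lam * (c - t)))
    field_simp
    ring
  rw [hq] at hb
  have h3 := (abs_im_le_norm _).trans hb
  have h4 : 4 * (2 * (e * (k:ℝ))) / (r / 16) = 128 * e * lam := by
    rw [← hlr]
    field_simp
    ring
  rw [h4, sub_im] at h3
  have h5 : (I * (lam:ℂ)).im = lam := by simp
  rw [h5] at h3
  exact h3

/-- a real number `z / z'` with `Re (w z) = Re (w z') = 0` -/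
theorem real_ratio {w z z' E : ℂ} (hw : w ≠ 0) (hz : z ≠ 0) (h1 : (w * z).re = 0)
    (h2 : (w * z').re = 0) (hE : z' = z * exp E) : Real.sin E.im = 0 := by
  have h3 : w * z' = (w * z) * exp E := by rw [hE]; ring
  have h4 : (w * z').re = (w * z).re * (exp E).re - (w * z).im * (exp E).im := by
    rw [h3, mul_re]
  rw [h1, h2, zero_mul, zero_sub] at h4
  have h5 : (w * z).im ≠ 0 := by
    intro h6
    exact mul_ne_zero hw hz (Complex.ext h1 h6)
  have h6 : (exp E).im = 0 := by
    have h7 : (w * z).im * (exp E).im = 0 := by linarith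
    exact (mul_eq_zero.1 h7).resolve_left h5
  rw [exp_im] at h6
  exact (mul_eq_zero.1 h6).resolve_left (Real.exp_pos _).ne'

theorem sin_gap {A : ℝ} (h0 : 0 < A) (h1 : Real.sin A = 0) : Real.pi ≤ A := by
  by_contra h
  push Not at h
  have := Real.sin_pos_of_pos_of_lt_pi h0 h
  linarith

/-- two real zeros -/
theorem two_zeros {P : ℂ → ℂ} (hP : Differentiable ℂ P) {r t m M : ℝ} {w : ℂ} (hw : w ≠ 0)
    (hr : 0 < r) (hm : 0 < m) (hne : ∀ c : ℂ, ‖c - t‖ ≤ r / 8 → P c ≠ 0)
    (hb : ∀ c : ℂ, ‖c - t‖ ≤ r / 16 → m ≤ (deriv P c / P c).im ∧ (deriv P c / P c).im ≤ M)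
    {x y : ℝ} (hx : t - r / 16 ≤ x) (hxy : x < y) (hy : y ≤ t + r / 16)
    (hxz : (w * P x).re = 0) (hyz : (w * P y).re = 0) : Real.pi ≤ M * (y - x) := by
  have hgd : Differentiable ℂ (fun v : ℂ => P (t + v)) := by
    intro v
    have h1 : DifferentiableAt ℂ (fun v : ℂ => (t : ℂ) + v) v := by fun_prop
    exact (hP _).comp v h1
  have hder : ∀ v : ℂ, deriv (fun v : ℂ => P (t + v)) v = deriv P (t + v) := by
    intro v
    have h4 : HasDerivAt (fun v : ℂ => (t : ℂ) + v) 1 v := (hasDerivAt_id v).const_add _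
    have h5 := (hP (t + v)).hasDerivAt.comp v h4
    rw [mul_one] at h5
    exact h5.deriv
  obtain ⟨L, hL0, hL1, hL2⟩ := exists_log hgd (R := r / 8) (by positivity) (fun v hv => by
    refine hne (t + v) ?_
    rw [add_sub_cancel_left]
    exact hv)
  -- the argument along the segment
  have hin : ∀ s ∈ Set.Icc x y, ‖((s - t : ℝ) : ℂ)‖ ≤ r / 16 := by
    intro s hs
    rw [norm_real, Real.norm_eq_abs, abs_le]
    constructor <;> linarith [hs.1, hs.2]
  have hin' : ∀ s ∈ Set.Icc x y, ((s - t : ℝ) : ℂ) ∈ ball (0 : ℂ) (r / 8) := by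
    intro s hs
    rw [mem_ball_zero_iff]
    have := hin s hs
    linarith
  have hts : ∀ s : ℝ, (t : ℂ) + ((s - t : ℝ) : ℂ) = s := by
    intro s
    push_cast
    ring
  have hA : ∀ s ∈ Set.Icc x y, HasDerivAt (fun s : ℝ => (L ((s - t : ℝ) : ℂ)).im)
      ((deriv P s / P s).im) s := by
    intro s hs
    have h1 := hL1 _ (hin' s hs)
    rw [hder, hts] at h1
    have h2 : HasDerivAt (fun s : ℝ => ((s - t : ℝ) : ℂ)) 1 s := by
      have h3 : HasDerivAt (fun s : ℝ => s - t) 1 s := (hasDerivAt_id s).sub_const t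
      have h4 := h3.ofReal_comp
      rw [ofReal_one] at h4
      exact h4
    have h3 : HasDerivAt (fun s : ℝ => L ((s - t : ℝ) : ℂ)) (deriv P s / P s * 1) s :=
      h1.comp s h2
    rw [mul_one] at h3
    exact imCLM.hasFDerivAt.comp_hasDerivAt s h3
  have hcs : ∀ s ∈ Set.Icc x y, ‖(s : ℂ) - t‖ ≤ r / 16 := by
    intro s hs
    rw [← ofReal_sub]
    exact hin s hs
  have hlow := Convex.mul_sub_le_image_sub_of_le_deriv (convex_Icc x y)
    (f := fun s : ℝ => (L ((s - t : ℝ) : ℂ)).im) (C := m)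
    (fun s hs => (hA s hs).continuousAt.continuousWithinAt)
    (fun s hs => by
      rw [interior_Icc] at hs
      exact (hA s (Set.Ioo_subset_Icc_self hs)).differentiableAt.differentiableWithinAt)
    (fun s hs => by
      rw [interior_Icc] at hs
      rw [(hA s (Set.Ioo_subset_Icc_self hs)).deriv]
      exact (hb s (hcs s (Set.Ioo_subset_Icc_self hs))).1)
    x (Set.left_mem_Icc.2 hxy.le) y (Set.right_mem_Icc.2 hxy.le) hxy.le
  have hup := Convex.image_sub_le_mul_sub_of_deriv_le (convex_Icc x y)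
    (f := fun s : ℝ => (L ((s - t : ℝ) : ℂ)).im) (C := M)
    (fun s hs => (hA s hs).continuousAt.continuousWithinAt)
    (fun s hs => by
      rw [interior_Icc] at hs
      exact (hA s (Set.Ioo_subset_Icc_self hs)).differentiableAt.differentiableWithinAt)
    (fun s hs => by
      rw [interior_Icc] at hs
      rw [(hA s (Set.Ioo_subset_Icc_self hs)).deriv]
      exact (hb s (hcs s (Set.Ioo_subset_Icc_self hs))).2)
    x (Set.left_mem_Icc.2 hxy.le) y (Set.right_mem_Icc.2 hxy.le) hxy.le
  have hxm := Set.left_mem_Icc.2 hxy.le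
  have hym := Set.right_mem_Icc.2 hxy.le
  have ex := hL2 _ (hin' x hxm)
  have ey := hL2 _ (hin' y hym)
  simp only [hts] at ex ey
  have hPx : P x ≠ 0 := hne x (by linarith [hcs x hxm])
  have hrat : P y = P x * exp (L ((y - t : ℝ) : ℂ) - L ((x - t : ℝ) : ℂ)) := by
    rw [ey, ex, exp_sub]
    have := exp_ne_zero (L ((x - t : ℝ) : ℂ))
    field_simp
  have hs := real_ratio hw hPx hxz hyz hrat
  rw [sub_im] at hs
  have hpos : 0 < (L ((y - t : ℝ) : ℂ)).im - (L ((x - t : ℝ) : ℂ)).im :=
    lt_of_lt_of_le (mul_pos hm (sub_pos.2 hxy)) hlow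
  exact (sin_gap hpos hs).trans hup

/-- **S_SPC.** -/
theorem spc_proof (hT : S_TWOE) : S_SPC := by
  intro ε hε
  obtain ⟨ε₁, hε₁, hε₁0, hε₁ε, hε₁h⟩ : ∃ ε₁ : ℝ, ε₁ = min ε (1 / 2) ∧ 0 < ε₁ ∧ ε₁ ≤ ε ∧ ε₁ ≤ 1 / 2 :=
    ⟨_, rfl, by positivity, min_le_left _ _, min_le_right _ _⟩
  obtain ⟨η, hη0, hη1, k0, hT⟩ := hT (ε₁ / 1000) (by positivity)
  refine ⟨η, hη0, hη1, max k0 1, ?_⟩
  intro f hf hreal k hk lam t hlam hr h
  have h2 := hT f hf k ((le_max_left _ _).trans hk) lam t hlam hr h
  have hk2 : 1 ≤ k := (le_max_right _ _).trans hk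
  have hk0 : (0:ℝ) < k := by exact_mod_cast hk2
  set r : ℝ := k / lam with hrdef
  have hr0 : 0 < r := by positivity
  set F0 := ‖f (t - I * (r : ℂ))‖ with hF0
  have hF0pos : 0 < F0 := norm_pos_iff.2 h.ne
  set u : ℂ := -(I * (r : ℂ)) with hu
  have huc : (starRingEnd ℂ) u = -u := by
    rw [hu, map_neg, map_mul, conj_I, conj_ofReal]
    ring
  set P := half f u k with hPdef
  have hP : Differentiable ℂ P := half_diff hf u k
  obtain ⟨w, hw, hwk⟩ : ∃ w : ℂ, w ≠ 0 ∧ ∀ z : ℂ, z + (-1) ^ k * (starRingEnd ℂ) z = 0 ↔ (w * z).re = 0 := by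
    rcases Nat.even_or_odd k with he | ho
    · refine ⟨1, one_ne_zero, fun z => ?_⟩
      rw [he.neg_one_pow, one_mul, one_mul, add_conj]
      norm_cast
      constructor
      · intro h; linarith
      · intro h; rw [h]; ring
    · refine ⟨I, I_ne_zero, fun z => ?_⟩
      rw [ho.neg_one_pow, neg_one_mul, ← sub_eq_add_neg, sub_conj]
      have : (I * z).re = -z.im := by simp
      rw [this]
      constructor
      · intro h
        have h3 : ((2 * z.im : ℝ) : ℂ) = 0 := by
          rcases mul_eq_zero.1 h with h4 | h4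
          · exact h4
          · exact absurd h4 I_ne_zero
        have h4 : 2 * z.im = 0 := by exact_mod_cast h3
        linarith
      · intro h
        have : z.im = 0 := by linarith
        rw [this]
        simp
  have hzero : ∀ x : ℝ, iteratedDeriv k f (x:ℂ) = 0 ↔ (w * P x).re = 0 := by
    intro x
    have h4 := half_decomp hf hreal huc k (x:ℂ)
    rw [conj_ofReal, ← hPdef] at h4
    have hun : u ≠ 0 := by
      rw [hu, neg_ne_zero]
      exact mul_ne_zero I_ne_zero (by exact_mod_cast hr0.ne')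
    rw [← hwk, ← h4]
    constructor
    · intro h5
      rw [h5]
      simp
    · intro h5
      have hpi : (2:ℂ) * Real.pi ≠ 0 := by
        have := Real.pi_ne_zero
        exact mul_ne_zero two_ne_zero (by exact_mod_cast this)
      have h6 := (mul_eq_zero.1 h5).resolve_left hpi
      have hfac : (k.factorial : ℂ) ≠ 0 := by exact_mod_cast k.factorial_ne_zero
      have h7 := (div_eq_zero_iff.1 h6).resolve_right hfac
      exact (mul_eq_zero.1 h7).resolve_left (pow_ne_zero _ hun)
  have hl : ∀ c : ℂ, ‖c - t‖ ≤ r / 16 → P c ≠ 0 ∧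
      |(deriv P c / P c).im - lam| ≤ 128 * (ε₁ / 1000) * lam := fun c hc =>
    logPe hP hk2 hlam hF0pos (by positivity) h2 hc
  have hne : ∀ c : ℂ, ‖c - t‖ ≤ r / 8 → P c ≠ 0 := by
    intro c hc h0
    have := (h2 c hc).1
    rw [h0, norm_zero] at this
    have h3 : 0 < F0 * Real.exp (-(lam * c.im) - ε₁ / 1000 * k) := by positivity
    linarith
  have hpi0 := Real.pi_pos
  constructor
  · -- existence
    intro a b ha hb hab
    by_contra hcon
    push Not at hcon
    have hab' : 0 < b - a := lt_of_lt_of_le (by positivity) hab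
    have hin : ∀ x ∈ Set.Icc a b, ‖(x:ℂ) - t‖ ≤ r / 16 := by
      intro x hx
      rw [← ofReal_sub, norm_real, Real.norm_eq_abs, abs_le]
      constructor <;> linarith [hx.1, hx.2]
    have hder : ∀ x : ℝ, HasDerivAt (fun x : ℝ => w * P x) (w * deriv P x) x := fun x =>
      ((hP x).hasDerivAt.comp_ofReal).const_mul w
    have hturn := turn' (q := fun x : ℝ => w * P x) (q' := fun x : ℝ => w * deriv P x) (a := a) (b := b)
      (m := (1 - 128 * (ε₁ / 1000)) * lam) (by linarith) (fun x _ => hder x)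
      (fun x hx h0 => hcon x hx.1 hx.2 ((hzero x).2 h0))
      (fun x hx => by
        rw [mul_div_mul_left _ _ hw]
        have h3 := (abs_le.1 (hl x (hin x hx)).2).1
        linarith)
    have h5 : (1 - 128 * (ε₁ / 1000)) * lam * ((1 + ε) * (Real.pi / lam)) ≤
        (1 - 128 * (ε₁ / 1000)) * lam * (b - a) :=
      mul_le_mul_of_nonneg_left hab (mul_nonneg (by linarith) hlam.le)
    have h6 : (1 - 128 * (ε₁ / 1000)) * lam * ((1 + ε) * (Real.pi / lam)) =
        (1 - 128 * (ε₁ / 1000)) * (1 + ε) * Real.pi := by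
      field_simp
    have h7 : 1 < (1 - 128 * (ε₁ / 1000)) * (1 + ε) := by
      have h8 : (1 - 128 * (ε₁ / 1000)) * (1 + ε₁) ≤ (1 - 128 * (ε₁ / 1000)) * (1 + ε) :=
        mul_le_mul_of_nonneg_left (by linarith) (by linarith)
      refine lt_of_lt_of_le ?_ h8
      nlinarith
    have h9 : Real.pi < (1 - 128 * (ε₁ / 1000)) * (1 + ε) * Real.pi := by
      calc Real.pi = 1 * Real.pi := (one_mul _).symm
        _ < _ := mul_lt_mul_of_pos_right h7 hpi0
    linarith
  · intro x y hx hxy hy hxz hyz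
    have h3 := two_zeros hP (r := r) (t := t) (m := (1 - 128 * (ε₁ / 1000)) * lam)
      (M := (1 + 128 * (ε₁ / 1000)) * lam) hw hr0 (mul_pos (by linarith) hlam) hne
      (fun c hc => by
        have h4 := abs_le.1 (hl c hc).2
        constructor <;> linarith [h4.1, h4.2])
      hx hxy hy ((hzero x).1 hxz) ((hzero y).1 hyz)
    have h4 : 0 < (1 + 128 * (ε₁ / 1000)) * lam := by positivity
    have h5 : (1 + 128 * (ε₁ / 1000)) * lam * ((1 - ε) * (Real.pi / lam)) ≤ Real.pi := by
      have h6 : (1 + 128 * (ε₁ / 1000)) * lam * ((1 - ε) * (Real.pi / lam)) =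
          (1 + 128 * (ε₁ / 1000)) * (1 - ε) * Real.pi := by
        field_simp
      rw [h6]
      have h7 : (1 + 128 * (ε₁ / 1000)) * (1 - ε) ≤ 1 := by
        have h8 : (1 + 128 * (ε₁ / 1000)) * (1 - ε) ≤ (1 + 128 * (ε₁ / 1000)) * (1 - ε₁) :=
          mul_le_mul_of_nonneg_left (by linarith) (by positivity)
        refine h8.trans ?_
        nlinarith
      calc (1 + 128 * (ε₁ / 1000)) * (1 - ε) * Real.pi ≤ 1 * Real.pi :=
            mul_le_mul_of_nonneg_right h7 hpi0.le
        _ = Real.pi := one_mul _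
    exact le_of_mul_le_mul_left (h5.trans h3) h4

end Pool.Agent.H277.ED
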